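import Mathlib

/-!
# A valuation ring of ℂ above p (module MA-15)

`exists_val`: apply `LocalSubring.exists_le_valuationSubring` (or `Ideal.image_subset_nonunits_valuationSubring`,
Mathlib.RingTheory.Valuation.LocalSubring) to the subring of integers of `ℂ` and the ideal generated by `p` (proper: `1 / p` is
not an integer). `charP_res`: `p = 0` in the residue field. `perf_res`: lift `a` to `a'` in `O`, take `b` in `ℂ` with `b ^ p = a'`
(`IsAlgClosed.exists_pow_nat_eq`); `b` is in `O` since `O` is integrally closed (or: if `b` is not in `O` then `b⁻¹` is in `O` and is a nonunit,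
but `a' * (b⁻¹) ^ p = 1`). `isUnit_natCast`: `n` is not `0` in the residue field. `mem_of_pow_eq_one`: `O` is integrally closed (or the same argument
with `b⁻¹`).
-/

namespace Pool.Agent.Helper24.MA

theorem exists_val (p : ℕ) [Fact p.Prime] :
    ∃ O : ValuationSubring ℂ, (p : O) ∈ IsLocalRing.maximalIdeal O := by
  have hp : p.Prime := Fact.out
  set A : Subring ℂ := (Int.castRingHom ℂ).range with hA
  have hmem : (p : ℂ) ∈ A := ⟨(p : ℤ), by simp⟩
  have hI : Ideal.span {(⟨(p : ℂ), hmem⟩ : A)} ≠ ⊤ := by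
    intro h
    rw [Ideal.span_singleton_eq_top] at h
    obtain ⟨⟨q, hq⟩, hq2⟩ := h.exists_right_inv
    obtain ⟨m, hm⟩ := hq
    have h1 : (p : ℂ) * q = 1 := congrArg Subtype.val hq2
    rw [← hm] at h1
    have h2 : ((p : ℤ) * m : ℤ) = 1 := by
      have : (((p : ℤ) * m : ℤ) : ℂ) = ((1 : ℤ) : ℂ) := by
        push_cast
        simpa using h1
      exact_mod_cast this
    have h3 : (p : ℤ) ∣ 1 := ⟨m, h2.symm⟩
    have h4 : p ∣ 1 := by exact_mod_cast h3
    exact hp.one_lt.ne' (Nat.dvd_one.mp h4)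
  obtain ⟨B, hAB, hB⟩ := Ideal.image_subset_nonunits_valuationSubring _ hI
  refine ⟨B, ?_⟩
  have h1 : (p : ℂ) ∈ B.nonunits := hB ⟨⟨(p : ℂ), hmem⟩, Ideal.subset_span rfl, rfl⟩
  obtain ⟨h2, h3⟩ := ValuationSubring.mem_nonunits_iff_exists_mem_maximalIdeal.mp h1
  have h4 : (⟨(p : ℂ), h2⟩ : B) = (p : B) := by
    apply Subtype.ext
    simp
  rw [← h4]
  exact h3

variable (O : ValuationSubring ℂ) {p : ℕ} [Fact p.Prime]

private theorem mem_of_pow_mem {z : ℂ} {n : ℕ} (hn : n ≠ 0) (hz : z ^ n ∈ O) : z ∈ O := by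
  rw [← ValuationSubring.valuation_le_one_iff] at hz ⊢
  rw [map_pow] at hz
  exact (pow_le_one_iff hn).mp hz

theorem charP_res (hO : (p : O) ∈ IsLocalRing.maximalIdeal O) :
    CharP (IsLocalRing.ResidueField O) p := by
  have hp : p.Prime := Fact.out
  rw [CharP.charP_iff_prime_eq_zero hp]
  have h1 := (IsLocalRing.residue_eq_zero_iff (p : O)).mpr hO
  rwa [map_natCast] at h1

theorem perf_res (p : ℕ) [Fact p.Prime] (a : IsLocalRing.ResidueField O) :
    ∃ b : IsLocalRing.ResidueField O, b ^ p = a := by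
  have hp : p.Prime := Fact.out
  obtain ⟨a', rfl⟩ := IsLocalRing.residue_surjective a
  obtain ⟨b, hb⟩ := IsAlgClosed.exists_pow_nat_eq (a' : ℂ) hp.pos
  have hbO : b ∈ O := mem_of_pow_mem O hp.ne_zero (by rw [hb]; exact a'.2)
  refine ⟨IsLocalRing.residue O ⟨b, hbO⟩, ?_⟩
  rw [← map_pow]
  congr 1
  apply Subtype.ext
  simpa using hb

theorem isUnit_natCast (hO : (p : O) ∈ IsLocalRing.maximalIdeal O) (n : ℕ) (hn : ¬ p ∣ n) :
    IsUnit (n : O) := by
  have := charP_res O hO
  by_contra h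
  have h1 : (n : O) ∈ IsLocalRing.maximalIdeal O := (IsLocalRing.mem_maximalIdeal _).mpr h
  have h2 := (IsLocalRing.residue_eq_zero_iff (n : O)).mpr h1
  rw [map_natCast] at h2
  exact hn ((CharP.cast_eq_zero_iff _ p n).mp h2)

theorem mem_of_pow_eq_one {z : ℂ} {n : ℕ} (hn : 0 < n) (hz : z ^ n = 1) : z ∈ O :=
  mem_of_pow_mem O hn.ne' (by rw [hz]; exact O.one_mem)

end Pool.Agent.Helper24.MA
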