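import Pool.Agent.Helper24.MA.Defs2

/-!
# Stable lattices over a valuation ring (module MA-17)

PROOF of `exists_red`. `O` is a valuation ring with fraction field `ℂ`. Take a basis `e` of `V` and let `L` be the `O`-submodule of `V` spanned by the finitely many
vectors `ρ x (e i)`. It is finitely generated, torsion free, `ρ`-stable and spans `V` over `ℂ`. A finitely generated torsion free module over a
valuation ring is free (`Module.Flat.flat_iff_torsion_eq_bot_of_isBezout` and `Module.free_of_flat_of_isLocalRing`; or by
hand: in a generating family with minimal number of elements a relation `∑ a_i m_i = 0` with `a_1 ≠ 0` dividing all the `a_i` gives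
`m_1 = -∑ (a_i/a_1) m_i`). An `O`-basis of `L` is a `ℂ`-basis of `V`: it spans, and a relation over `ℂ` can be multiplied by a nonzero element of `O`
to have coefficients in `O` (`LinearIndependent.iff_fractionRing`). Its cardinality is the `n` of `Red`. `s x` is the matrix of the restriction of `ρ x` to `L` in this basis
(`LinearMap.toMatrix`, multiplicative).
-/

open TensorProduct

namespace Pool.Agent.Helper24.MA

/-- a finitely generated submodule of a complex vector space over a valuation ring is free -/
private theorem lat_free (O : ValuationSubring ℂ) {V : Type} [AddCommGroup V] [Module ℂ V]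
    (L : Submodule O V) [Module.Finite O L] : Module.Free O L := by
  have htor : Submodule.torsion O L = ⊥ := by
    rw [eq_bot_iff]
    intro x hx
    obtain ⟨a, ha⟩ := (Submodule.mem_torsion_iff x).mp hx
    have h1 : ((a : O) : ℂ) • (x : V) = 0 := by
      have := congrArg Subtype.val ha
      exact this
    have ha0 : ((a : O) : ℂ) ≠ 0 := by
      intro h
      exact nonZeroDivisors.ne_zero a.2 (Subtype.ext h)
    rcases smul_eq_zero.mp h1 with h2 | h2
    · exact absurd h2 ha0
    · exact (Submodule.mem_bot O).mpr (Subtype.ext h2)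
  have hfl : Module.Flat O L := Module.Flat.flat_iff_torsion_eq_bot_of_isBezout.mpr htor
  exact Module.free_of_flat_of_isLocalRing

theorem exists_red (O : ValuationSubring ℂ) {X V : Type} [Group X] [Finite X] [AddCommGroup V]
    [Module ℂ V] [FiniteDimensional ℂ V] (ρ : Representation ℂ X V) : Nonempty (Red O ρ) := by
  classical
  let e := Module.finBasis ℂ V
  let L : Submodule O V := Submodule.span O (Set.range fun xi : X × Fin (Module.finrank ℂ V) =>
    ρ xi.1 (e xi.2))
  have hfin : Module.Finite O L := Module.Finite.span_of_finite O (Set.finite_range _)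
  have hfree : Module.Free O L := lat_free O L
  have hstab : ∀ x : X, ∀ v ∈ L, ((ρ x).restrictScalars O) v ∈ L := by
    intro x v hv
    have h1 : L ≤ L.comap ((ρ x).restrictScalars O) := by
      refine Submodule.span_le.mpr ?_
      rintro _ ⟨⟨y, i⟩, rfl⟩
      refine Submodule.subset_span ⟨⟨x * y, i⟩, ?_⟩
      show ρ (x * y) (e i) = ρ x (ρ y (e i))
      rw [map_mul]
      rfl
    exact h1 hv
  let rL : X →* Module.End O L :=
    { toFun := fun x => ((ρ x).restrictScalars O).restrict (hstab x)
      map_one' := by
        ext v
        simp [LinearMap.restrict_apply]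
      map_mul' := fun x y => by
        ext v
        simp [LinearMap.restrict_apply] }
  let bL := Module.finBasis O L
  have hli : LinearIndependent ℂ (fun i => (bL i : V)) := by
    rw [← LinearIndependent.iff_fractionRing (R := O)]
    exact bL.linearIndependent.map' L.subtype (Submodule.ker_subtype L)
  have hspO : ∀ v ∈ L, v ∈ Submodule.span ℂ (Set.range fun i => (bL i : V)) := by
    intro v hv
    have h1 := bL.sum_repr ⟨v, hv⟩
    have h2 : v = ∑ i, bL.repr ⟨v, hv⟩ i • (bL i : V) := by
      have := congrArg (L.subtype) h1
      rw [map_sum] at this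
      simpa using this.symm
    rw [h2]
    refine Submodule.sum_mem _ fun i _ => ?_
    have h3 : bL.repr ⟨v, hv⟩ i • (bL i : V) = ((bL.repr ⟨v, hv⟩ i : O) : ℂ) • (bL i : V) := rfl
    rw [h3]
    exact Submodule.smul_mem _ _ (Submodule.subset_span ⟨i, rfl⟩)
  have hsp : ⊤ ≤ Submodule.span ℂ (Set.range fun i => (bL i : V)) := by
    rw [← e.span_eq]
    refine Submodule.span_le.mpr ?_
    rintro _ ⟨i, rfl⟩
    refine hspO _ (Submodule.subset_span ⟨⟨1, i⟩, ?_⟩)
    simp
  let b : Module.Basis (Fin (Module.finrank O L)) ℂ V := Module.Basis.mk hli hsp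
  have hb : ∀ i, b i = (bL i : V) := fun i => Module.Basis.mk_apply hli hsp i
  refine ⟨⟨Module.finrank O L, b,
    (LinearMap.toMatrixAlgEquiv bL).toMulEquiv.toMonoidHom.comp rL, fun x => ?_⟩⟩
  ext i j
  rw [LinearMap.toMatrix_apply, Matrix.map_apply]
  show b.repr (ρ x (b j)) i = ((LinearMap.toMatrixAlgEquiv bL (rL x) i j : O) : ℂ)
  rw [LinearMap.toMatrixAlgEquiv_apply]
  have h1 : ρ x (b j) = ∑ i, ((bL.repr (rL x (bL j)) i : O) : ℂ) • b i := by
    have h2 := congrArg (L.subtype) (bL.sum_repr (rL x (bL j)))
    rw [map_sum] at h2
    have h3 : L.subtype (rL x (bL j)) = ρ x (b j) := by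
      rw [hb]; rfl
    rw [h3] at h2
    rw [← h2]
    refine Finset.sum_congr rfl fun i _ => ?_
    rw [hb]
    rfl
  rw [h1, Module.Basis.repr_sum_self]

end Pool.Agent.Helper24.MA
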