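import Pool.Agent.Helper24.MA.Defs2

/-!
# Facts on reductions (module MA-18)

`red_n`: the cardinality of a basis. `red_trace`: the trace of the matrix `(s x).map coe` is the coercion of `trace (s x)` and
`trace (R.bar x) = trace ((s x).map residue) = residue (trace (s x))`. `red_scalar`: the matrix of `z • id` is `z • 1`, so the entries of `s x` are those of
`(⟨z, h⟩ : O) • 1`. `red_bar_apply`: the definition.
-/

namespace Pool.Agent.Helper24.MA

variable {O : ValuationSubring ℂ} {X V : Type} [Group X] [AddCommGroup V] [Module ℂ V]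
  {ρ : Representation ℂ X V}

theorem red_bar_apply (R : Red O ρ) (x : X) :
    R.bar x = Matrix.toLin' ((R.s x).map (IsLocalRing.residue O)) := by
  rfl

theorem red_n (R : Red O ρ) : R.n = Module.finrank ℂ V := by
  rw [Module.finrank_eq_card_basis R.b, Fintype.card_fin]

theorem red_trace (R : Red O ρ) (x : X) : ∃ h : ρ.character x ∈ O,
    LinearMap.trace (IsLocalRing.ResidueField O) (Fin R.n → IsLocalRing.ResidueField O)
      (R.bar x) = IsLocalRing.residue O ⟨ρ.character x, h⟩ := by
  have h1 : ρ.character x = ((Matrix.trace (R.s x) : O) : ℂ) := by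
    unfold Representation.character
    rw [LinearMap.trace_eq_matrix_trace ℂ R.b, R.hs]
    unfold Matrix.trace
    simp only [Matrix.diag_apply, Matrix.map_apply]
    exact (map_sum O.subtype _ _).symm
  refine ⟨h1 ▸ (Matrix.trace (R.s x)).2, ?_⟩
  have h2 : (⟨ρ.character x, h1 ▸ (Matrix.trace (R.s x)).2⟩ : O) = Matrix.trace (R.s x) :=
    Subtype.ext h1
  rw [h2, red_bar_apply, Matrix.trace_toLin'_eq]
  unfold Matrix.trace
  rw [map_sum]
  rfl

theorem red_scalar (R : Red O ρ) (x : X) (z : ℂ) (hz : ρ x = z • LinearMap.id) (h0 : z ∈ O) :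
    R.bar x = IsLocalRing.residue O ⟨z, h0⟩ • LinearMap.id := by
  have h1 : R.s x = (⟨z, h0⟩ : O) • (1 : Matrix (Fin R.n) (Fin R.n) O) := by
    have h2 := R.hs x
    rw [hz, map_smul, LinearMap.toMatrix_id] at h2
    ext1 i j
    apply Subtype.ext
    have h3 := congrFun (congrFun h2 i) j
    rw [Matrix.smul_apply, Matrix.map_apply, Matrix.one_apply] at h3
    rw [← h3, Matrix.smul_apply, Matrix.one_apply]
    split_ifs <;> simp
  have h2 : (R.s x).map (IsLocalRing.residue O) =
      IsLocalRing.residue O ⟨z, h0⟩ • (1 : Matrix (Fin R.n) (Fin R.n) _) := by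
    rw [h1]
    ext1 i j
    rw [Matrix.map_apply, Matrix.smul_apply, Matrix.smul_apply, smul_eq_mul, map_mul, smul_eq_mul,
      Matrix.one_apply, Matrix.one_apply]
    split_ifs <;> simp
  rw [red_bar_apply, h2, map_smul, Matrix.toLin'_one]

end Pool.Agent.Helper24.MA
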