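import Pool.Agent.Helper24.MA.Val.RedFacts
import Pool.Agent.Helper24.MA.Val.Exists
import Pool.Agent.Helper42.INC.Schur

/-!
# The Fourier relations modulo p (module MA-19)

Let `S i m` be the complex matrices `((R i).s m).map coe` of `ρ i`. Schur's orthogonality relations (from `schur_trace` and `schur_trace_zero` of
Helper42.INC.Schur applied to rank one operators / matrix units) say
`n_i * ∑ m, (S i m) a b * (S i m⁻¹) c d = |M| if a = d and b = c, else 0`, and `∑ m, (S i m) a b * (S j m⁻¹) c d = 0` for `i ≠ j`. These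
are relations between elements of `O` (coercion is injective), apply `residue`. The relation with `a = d`, `b = c` shows that
`n_i ≠ 0` in the residue field because `|M| ≠ 0` there (`n_i > 0`: an irreducible representation is nonzero). By linearity in the matrix `A` the relations are
equivalent to `same` and `diff` of `Fou`: the `(c,d)` entry of `∑ m, trace (A S m) • S m⁻¹` is `∑ A b a (∑ m, (S m) a b (S m⁻¹) c d)`.
(`Module.finrank` of `Fin n → k` is `n`, `red_n` if needed; the trace of `Matrix.toLin'` is the matrix trace.)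
-/

set_option linter.unusedSectionVars false

open Pool.Agent.Helper42.INC

namespace Pool.Agent.Helper24.MA

section

variable {O : ValuationSubring ℂ} {M V W : Type} [Group M] [Fintype M]
  [AddCommGroup V] [Module ℂ V] [FiniteDimensional ℂ V]
  [AddCommGroup W] [Module ℂ W] [FiniteDimensional ℂ W]
  {ρ : Representation ℂ M V} {τ : Representation ℂ M W}

private theorem fou_matrix_sum (Rρ : Red O ρ) (Rτ : Red O τ) (a b : Fin Rτ.n) (c d : Fin Rρ.n) :
    ((∑ m, (Rτ.s m) b a * (Rρ.s m⁻¹) c d : O) : ℂ) =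
      LinearMap.toMatrix Rρ.b Rτ.b (avgMap ρ τ (Matrix.toLin Rρ.b Rτ.b
        (Matrix.single a c 1))) b d := by
  classical
  unfold avgMap
  rw [map_sum, Matrix.sum_apply]
  have e : ((∑ m, (Rτ.s m) b a * (Rρ.s m⁻¹) c d : O) : ℂ) =
      ∑ m, ((Rτ.s m b a : O) : ℂ) * ((Rρ.s m⁻¹ c d : O) : ℂ) := by
    push_cast
    rfl
  rw [e]
  refine Finset.sum_congr rfl fun m _ => ?_
  rw [LinearMap.toMatrix_comp Rρ.b Rτ.b Rτ.b, LinearMap.toMatrix_comp Rρ.b Rρ.b Rτ.b,
    LinearMap.toMatrix_toLin, Rτ.hs, Rρ.hs, Matrix.mul_apply, Finset.sum_eq_single a]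
  · rw [Matrix.single_mul_apply_same, one_mul, Matrix.map_apply, Matrix.map_apply]
  · intro x _ hx
    rw [Matrix.single_mul_apply_of_ne _ _ _ _ _ hx, mul_zero]
  · intro h; exact absurd (Finset.mem_univ _) h

private theorem fou_ne (Rρ : Red O ρ) (Rτ : Red O τ) (hρ : ρ.IsIrreducible)
    (hτ : τ.IsIrreducible) (hne : ρ.character ≠ τ.character) (a b : Fin Rτ.n)
    (c d : Fin Rρ.n) : (∑ m, (Rτ.s m) b a * (Rρ.s m⁻¹) c d : O) = 0 := by
  apply Subtype.ext
  change ((∑ m, (Rτ.s m) b a * (Rρ.s m⁻¹) c d : O) : ℂ) = 0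
  rw [fou_matrix_sum, avgMap_zero ρ τ hne, map_zero]
  rfl

private theorem fou_eq (Rρ : Red O ρ) (hρ : ρ.IsIrreducible) (a b c d : Fin Rρ.n) :
    (Rρ.n : O) * (∑ m, (Rρ.s m) b a * (Rρ.s m⁻¹) c d : O) =
      if a = c ∧ b = d then (Fintype.card M : O) else 0 := by
  classical
  apply Subtype.ext
  have hn := finrank_ne_zero_of_irr ρ
  rw [← red_n Rρ] at hn
  have h1 : (((Rρ.n : O) * (∑ m, (Rρ.s m) b a * (Rρ.s m⁻¹) c d : O) : O) : ℂ) =
      (Rρ.n : ℂ) * ((∑ m, (Rρ.s m) b a * (Rρ.s m⁻¹) c d : O) : ℂ) := by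
    push_cast
    rfl
  change (((Rρ.n : O) * (∑ m, (Rρ.s m) b a * (Rρ.s m⁻¹) c d : O) : O) : ℂ) = _
  rw [h1, fou_matrix_sum, avgMap_scalar, ← red_n Rρ, map_smul, LinearMap.toMatrix_id,
    LinearMap.trace_eq_matrix_trace ℂ Rρ.b, LinearMap.toMatrix_toLin, Matrix.smul_apply,
    Matrix.one_apply, smul_eq_mul, Nat.card_eq_fintype_card]
  by_cases hac : a = c
  · subst hac
    rw [Matrix.trace_single_eq_same]
    by_cases hbd : b = d
    · subst hbd
      simp only [if_true, and_self]
      field_simp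
      rfl
    · have hbd' : ¬ (a = a ∧ b = d) := fun h => hbd h.2
      rw [if_neg hbd, if_neg hbd']
      simp
  · have hac' : ¬ (a = c ∧ b = d) := fun h => hac h.1
    rw [Matrix.trace_single_eq_of_ne _ _ _ hac, if_neg hac']
    simp

end

private theorem fou_entry {k : Type} [Field k] {M : Type} [Fintype M] {n n' : ℕ}
    (A : (Fin n → k) →ₗ[k] (Fin n → k)) (S : M → Matrix (Fin n) (Fin n) k)
    (S' : M → Matrix (Fin n') (Fin n') k) (c d : Fin n') :
    LinearMap.toMatrix' (∑ m, LinearMap.trace k (Fin n → k) (A ∘ₗ Matrix.toLin' (S m)) •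
      Matrix.toLin' (S' m)) c d =
      ∑ a, ∑ b, LinearMap.toMatrix' A a b * ∑ m, S m b a * S' m c d := by
  classical
  rw [map_sum, Matrix.sum_apply]
  have e : ∀ m, LinearMap.toMatrix' (LinearMap.trace k (Fin n → k) (A ∘ₗ Matrix.toLin' (S m)) •
      Matrix.toLin' (S' m)) c d =
      ∑ a, ∑ b, LinearMap.toMatrix' A a b * (S m b a * S' m c d) := by
    intro m
    rw [map_smul, LinearMap.toMatrix'_toLin', Matrix.smul_apply, smul_eq_mul]
    have e1 : A ∘ₗ Matrix.toLin' (S m) = Matrix.toLin' (LinearMap.toMatrix' A * S m) := by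
      rw [Matrix.toLin'_mul, Matrix.toLin'_toMatrix']
    rw [e1, Matrix.trace_toLin'_eq, Matrix.trace, Finset.sum_mul]
    refine Finset.sum_congr rfl fun a _ => ?_
    rw [Matrix.diag_apply, Matrix.mul_apply, Finset.sum_mul]
    refine Finset.sum_congr rfl fun b _ => ?_
    ring
  rw [Finset.sum_congr rfl (fun m _ => e m), Finset.sum_comm]
  refine Finset.sum_congr rfl fun a _ => ?_
  rw [Finset.sum_comm]
  refine Finset.sum_congr rfl fun b _ => ?_
  rw [Finset.mul_sum]

theorem fou_red {O : ValuationSubring ℂ} {p : ℕ} [Fact p.Prime]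
    (hO : (p : O) ∈ IsLocalRing.maximalIdeal O) {M I : Type} [Group M] [Fintype M]
    (hM : ¬ p ∣ Fintype.card M) {V : I → Type} [∀ i, AddCommGroup (V i)] [∀ i, Module ℂ (V i)]
    [∀ i, FiniteDimensional ℂ (V i)] (ρ : ∀ i, Representation ℂ M (V i))
    (hirr : ∀ i, (ρ i).IsIrreducible) (hne : ∀ i j, i ≠ j → (ρ i).character ≠ (ρ j).character)
    (R : ∀ i, Red O (ρ i)) : Fou (fun i => (R i).bar) := by
  classical
  have hM0 : (Fintype.card M : IsLocalRing.ResidueField O) ≠ 0 := by
    have h1 := (isUnit_natCast O hO _ hM).map (IsLocalRing.residue O)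
    rw [map_natCast] at h1
    exact h1.ne_zero
  have hbar : ∀ i x, (R i).bar x = Matrix.toLin' (((R i).s x).map (IsLocalRing.residue O)) :=
    fun i x => red_bar_apply (R i) x
  have hsame : ∀ i (a b c d : Fin (R i).n), ((R i).n : IsLocalRing.ResidueField O) *
      (∑ m, ((R i).s m).map (IsLocalRing.residue O) b a *
        ((R i).s m⁻¹).map (IsLocalRing.residue O) c d) =
      if a = c ∧ b = d then (Fintype.card M : IsLocalRing.ResidueField O) else 0 := by
    intro i a b c d
    have h := congrArg (IsLocalRing.residue O) (fou_eq (R i) (hirr i) a b c d)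
    rw [map_mul, map_natCast, map_sum] at h
    simp only [map_mul] at h
    simp only [Matrix.map_apply]
    rw [h]
    split_ifs
    · exact map_natCast _ _
    · exact map_zero _
  have hn : ∀ i, ((R i).n : IsLocalRing.ResidueField O) ≠ 0 := by
    intro i h0
    have hpos : 0 < (R i).n := by
      have h1 := finrank_ne_zero_of_irr (ρ i) (hρ := hirr i)
      rw [← red_n (R i)] at h1
      exact Nat.pos_of_ne_zero (fun h2 => h1 (by rw [h2]; exact Nat.cast_zero))
    have h := hsame i ⟨0, hpos⟩ ⟨0, hpos⟩ ⟨0, hpos⟩ ⟨0, hpos⟩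
    rw [h0, zero_mul, if_pos ⟨rfl, rfl⟩] at h
    exact hM0 h.symm
  refine ⟨?_, ?_, ?_⟩
  · intro i
    rw [Module.finrank_fin_fun]
    exact hn i
  · intro i A
    apply LinearMap.toMatrix'.injective
    ext c d
    simp only [hbar]
    rw [fou_entry A (fun m => ((R i).s m).map (IsLocalRing.residue O))
      (fun m => ((R i).s m⁻¹).map (IsLocalRing.residue O)) c d]
    rw [map_smul, Matrix.smul_apply, smul_eq_mul, Module.finrank_fin_fun]
    have h2 : ∀ a b : Fin (R i).n,
        (∑ m, ((R i).s m).map (IsLocalRing.residue O) b a *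
        ((R i).s m⁻¹).map (IsLocalRing.residue O) c d) =
        if a = c ∧ b = d then (Fintype.card M : IsLocalRing.ResidueField O) /
          ((R i).n : IsLocalRing.ResidueField O) else 0 := by
      intro a b
      have h := hsame i a b c d
      have hni := hn i
      by_cases hab : a = c ∧ b = d
      · rw [if_pos hab] at h ⊢
        rw [eq_div_iff hni, mul_comm]
        exact h
      · rw [if_neg hab] at h ⊢
        exact (mul_eq_zero.1 h).resolve_left hni
    rw [Finset.sum_eq_single c]
    · rw [Finset.sum_eq_single d]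
      · rw [h2, if_pos ⟨rfl, rfl⟩, mul_comm]
      · intro b _ hb
        rw [h2, if_neg (fun h => hb h.2), mul_zero]
      · intro h; exact absurd (Finset.mem_univ _) h
    · intro a _ ha
      refine Finset.sum_eq_zero fun b _ => ?_
      rw [h2, if_neg (fun h => ha h.1), mul_zero]
    · intro h; exact absurd (Finset.mem_univ _) h
  · intro i j hij A
    apply LinearMap.toMatrix'.injective
    ext c d
    simp only [hbar]
    rw [fou_entry A (fun m => ((R i).s m).map (IsLocalRing.residue O))
      (fun m => ((R j).s m⁻¹).map (IsLocalRing.residue O)) c d]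
    rw [map_zero, Matrix.zero_apply]
    refine Finset.sum_eq_zero fun a _ => Finset.sum_eq_zero fun b _ => ?_
    have h := congrArg (IsLocalRing.residue O)
      (fou_ne (R j) (R i) (hirr j) (hirr i) (hne j i (Ne.symm hij)) a b c d)
    rw [map_sum, map_zero] at h
    simp only [map_mul] at h
    simp only [Matrix.map_apply]
    rw [h, mul_zero]

end Pool.Agent.Helper24.MA
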