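import Pool.Agent.Helper24.MA.Val.Exists

/-!
# Roots of unity of order prime to p (module MA-16)

`root_unique`: `ζ = z / w` satisfies `ζ ^ n = 1` and `ζ - 1` in the maximal ideal; if `ζ ≠ 1` then
`0 = 1 + ζ + ... + ζ ^ (n-1)` is congruent to `n`, a unit; contradiction.
`lift_char`: `|X| = p ^ a * n` with `p` not dividing `n`; `(l g) ^ n = 1` since `((l g) ^ n) ^ (p ^ a) = 1` and the field has characteristic `p`
(`x ^ (p ^ a) - 1 = (x - 1) ^ (p ^ a)`). The reduction map from the `n`-th roots of unity of `ℂ` (they lie in `O`) to those of the residue field is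
injective (`root_unique`), there are `n` of them in `ℂ` and at most `n` in the residue field
(`Complex.card_rootsOfUnity`, `card_rootsOfUnity`), so it is bijective; compose its inverse with `l`.
-/

namespace Pool.Agent.Helper24.MA

variable (O : ValuationSubring ℂ) {p : ℕ} [Fact p.Prime]

theorem root_unique (hO : (p : O) ∈ IsLocalRing.maximalIdeal O) {z w : ℂ} {n : ℕ}
    (hn : ¬ p ∣ n) (hz : z ^ n = 1) (hw : w ^ n = 1) (hzO : z ∈ O) (hwO : w ∈ O)
    (h : IsLocalRing.residue O ⟨z, hzO⟩ = IsLocalRing.residue O ⟨w, hwO⟩) : z = w := by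
  have h1 : (⟨z, hzO⟩ : O) ^ n = 1 := Subtype.ext hz
  have h2 : (⟨w, hwO⟩ : O) ^ n = 1 := Subtype.ext hw
  have h3 := geom_sum₂_mul (⟨z, hzO⟩ : O) (⟨w, hwO⟩ : O) n
  rw [h1, h2, sub_self] at h3
  have hn0 : n ≠ 0 := by
    rintro rfl
    exact hn (dvd_zero p)
  rcases mul_eq_zero.1 h3 with h4 | h4
  · exfalso
    have h5 := congrArg (IsLocalRing.residue O) h4
    rw [map_sum, map_zero] at h5
    have h6 : ∀ i ∈ Finset.range n, IsLocalRing.residue O ((⟨z, hzO⟩ : O) ^ i *
        (⟨w, hwO⟩ : O) ^ (n - 1 - i)) = IsLocalRing.residue O ⟨w, hwO⟩ ^ (n - 1) := by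
      intro i hi
      rw [Finset.mem_range] at hi
      rw [map_mul, map_pow, map_pow, h, ← pow_add]
      congr 1
      omega
    rw [Finset.sum_congr rfl h6, Finset.sum_const, Finset.card_range, nsmul_eq_mul] at h5
    have h7 : IsUnit (IsLocalRing.residue O (n : O)) := (isUnit_natCast O hO n hn).map _
    rw [map_natCast] at h7
    have h8 : IsLocalRing.residue O ⟨w, hwO⟩ ^ (n - 1) = 0 := by
      rcases mul_eq_zero.1 h5 with h8 | h8
      · exact absurd h8 h7.ne_zero
      · exact h8
    have h9 : IsLocalRing.residue O ⟨w, hwO⟩ ^ n = 1 := by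
      rw [← map_pow, h2, map_one]
    rw [← Nat.sub_add_cancel (Nat.one_le_iff_ne_zero.2 hn0), pow_succ, h8, zero_mul] at h9
    exact zero_ne_one h9
  · exact congrArg Subtype.val (sub_eq_zero.1 h4)

theorem lift_char (hO : (p : O) ∈ IsLocalRing.maximalIdeal O) {X : Type} [Group X] [Finite X]
    (l : X →* (IsLocalRing.ResidueField O)ˣ) :
    ∃ L : X →* ℂˣ, (∀ g, ∃ h : ((L g : ℂˣ) : ℂ) ∈ O,
      IsLocalRing.residue O ⟨_, h⟩ = ((l g : (IsLocalRing.ResidueField O)ˣ) :
        IsLocalRing.ResidueField O)) ∧ ∃ n : ℕ, ¬ p ∣ n ∧ ∀ g, L g ^ n = 1 := by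
  classical
  have := charP_res O hO
  obtain ⟨a, n, hn, hN⟩ := Nat.exists_eq_pow_mul_and_not_dvd (n := Nat.card X) Nat.card_pos.ne' p
    (Fact.out : p.Prime).ne_one
  have hn0 : n ≠ 0 := by
    rintro rfl
    exact hn (dvd_zero p)
  have : NeZero n := ⟨hn0⟩
  have hl : ∀ g, l g ^ n = 1 := by
    intro g
    have h1 : l g ^ (p ^ a * n) = 1 := by
      rw [← hN, ← map_pow, pow_card_eq_one', map_one]
    have h2 : ((l g : (IsLocalRing.ResidueField O)ˣ) : IsLocalRing.ResidueField O) ^ (p ^ a * n) = 1 := by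
      rw [← Units.val_pow_eq_pow_val, h1, Units.val_one]
    rw [ExpChar.pow_prime_pow_mul_eq_one_iff] at h2
    apply Units.ext
    rw [Units.val_pow_eq_pow_val, h2, Units.val_one]
  let f1 : rootsOfUnity n O →* rootsOfUnity n ℂ := restrictRootsOfUnity O.subtype n
  let f2 : rootsOfUnity n O →* rootsOfUnity n (IsLocalRing.ResidueField O) :=
    restrictRootsOfUnity (IsLocalRing.residue O) n
  have h1 : Function.Surjective f1 := by
    intro y
    have hy : ((y : ℂˣ) : ℂ) ^ n = 1 := by
      have := y.2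
      rw [mem_rootsOfUnity] at this
      rw [← Units.val_pow_eq_pow_val, this, Units.val_one]
    have hyO : ((y : ℂˣ) : ℂ) ∈ O := mem_of_pow_eq_one O (Nat.pos_of_ne_zero hn0) hy
    have hy' : (⟨_, hyO⟩ : O) ^ n = 1 := Subtype.ext hy
    refine ⟨rootsOfUnity.mkOfPowEq (⟨_, hyO⟩ : O) hy', ?_⟩
    apply Subtype.ext
    apply Units.ext
    rfl
  have h2 : Function.Injective f2 := by
    intro x y hxy
    have hxy' : IsLocalRing.residue O ((x : Oˣ) : O) = IsLocalRing.residue O ((y : Oˣ) : O) := by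
      have := congrArg (fun t : rootsOfUnity n (IsLocalRing.ResidueField O) =>
        ((t : (IsLocalRing.ResidueField O)ˣ) : IsLocalRing.ResidueField O)) hxy
      exact this
    have hx : (((x : Oˣ) : O) : ℂ) ^ n = 1 := by
      have := x.2
      rw [mem_rootsOfUnity] at this
      have h3 : ((x : Oˣ) : O) ^ n = 1 := by
        rw [← Units.val_pow_eq_pow_val, this, Units.val_one]
      exact congrArg Subtype.val h3
    have hy : (((y : Oˣ) : O) : ℂ) ^ n = 1 := by
      have := y.2
      rw [mem_rootsOfUnity] at this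
      have h3 : ((y : Oˣ) : O) ^ n = 1 := by
        rw [← Units.val_pow_eq_pow_val, this, Units.val_one]
      exact congrArg Subtype.val h3
    have h3 := root_unique O hO hn hx hy ((x : Oˣ) : O).2 ((y : Oˣ) : O).2 hxy'
    apply Subtype.ext
    apply Units.ext
    exact Subtype.ext h3
  have hcard : Nat.card (rootsOfUnity n ℂ) = n := Complex.card_rootsOfUnity n
  have h3 : Function.Bijective f2 := by
    have : Finite (rootsOfUnity n O) := Finite.of_injective f2 h2
    rw [Nat.bijective_iff_injective_and_card]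
    refine ⟨h2, le_antisymm (Nat.card_le_card_of_injective f2 h2) ?_⟩
    have h4 : Nat.card (rootsOfUnity n (IsLocalRing.ResidueField O)) ≤ n :=
      card_rootsOfUnity (IsLocalRing.ResidueField O) n
    have h5 := Nat.card_le_card_of_surjective f1 h1
    rw [hcard] at h5
    exact h4.trans h5
  let e2 := MulEquiv.ofBijective f2 h3
  let l' : X →* rootsOfUnity n (IsLocalRing.ResidueField O) :=
    l.codRestrict (rootsOfUnity n (IsLocalRing.ResidueField O)) (fun g => by
      rw [mem_rootsOfUnity]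
      exact hl g)
  refine ⟨((rootsOfUnity n ℂ).subtype.comp f1).comp (e2.symm.toMonoidHom.comp l'), ?_, n, hn, ?_⟩
  · intro g
    refine ⟨(((e2.symm (l' g) : rootsOfUnity n O) : Oˣ) : O).2, ?_⟩
    have h6 : f2 (e2.symm (l' g)) = l' g := e2.apply_symm_apply (l' g)
    have h7 := congrArg (fun t : rootsOfUnity n (IsLocalRing.ResidueField O) =>
        ((t : (IsLocalRing.ResidueField O)ˣ) : IsLocalRing.ResidueField O)) h6
    exact h7
  · intro g
    exact (f1 (e2.symm (l' g))).2

end Pool.Agent.Helper24.MA
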